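import Pool.Agent.Lib.MP_8277d7_ag.LC5

/-! Negative answer: for `n = 4` and `j = 5` the multiplicity `𝔍^j` of the ideal of submaximal
minors of the generic symmetric matrix does not exist, although the hypothesis on `j` holds. -/

open CategoryTheory Filter Topology Pool.Agent.Lib.MP_8277d7_ag

namespace Pool.Agent.Results.MP_8277d7_ag.Disproof

section
variable {S : Type} [CommRing S]

/-- The length of the local cohomology module `H^j_𝔪(M)` (Mathlib's `localCohomology`). -/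
noncomputable def lcLength (𝔪 : Ideal S) (j : ℕ) (M : ModuleCat.{0} S) : ℕ∞ :=
  Module.length S ((localCohomology 𝔪 j).obj M)

/-- The module `S/I^D`. -/
noncomputable def thick (I : Ideal S) (D : ℕ) : ModuleCat.{0} S := ModuleCat.of S (S ⧸ I ^ D)

/-- The module `K₁/K₂` (for ideals `K₂ ⊆ K₁`). -/
noncomputable def idealQuot (K₁ K₂ : Ideal S) : ModuleCat.{0} S :=
  ModuleCat.of S (↥K₁ ⧸ Submodule.comap K₁.subtype K₂)

/-- `𝔍^j(I)` exists: all lengths are finite and the limit exists as a real number. -/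
def JExists (𝔪 : Ideal S) (k j : ℕ) (I : Ideal S) : Prop :=
  (∀ d : ℕ, 1 ≤ d → lcLength 𝔪 j (idealQuot (I ^ (d - 1)) (I ^ d)) ≠ ⊤) ∧
    ∃ L : ℝ, Tendsto (fun d : ℕ => (((k - 1).factorial : ℝ) *
      ((lcLength 𝔪 j (idealQuot (I ^ (d - 1)) (I ^ d))).toNat : ℝ)) / (d : ℝ) ^ (k - 1))
      atTop (𝓝 L)

end

/-- The homogeneous maximal ideal `𝔪 = (x_{ij})`. -/
noncomputable def irr (n : ℕ) : Ideal (SymRing n) := Ideal.span (Set.range MvPolynomial.X)

theorem result :
    (∀ D : ℕ, 1 ≤ D → lcLength (irr 4) 5 (thick (minorIdeal 3 (genSym 4)) D) ≠ ⊤) ∧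
      (∃ D : ℕ, 1 ≤ D ∧ lcLength (irr 4) 5 (thick (minorIdeal 3 (genSym 4)) D) ≠ 0) ∧
      ¬ JExists (irr 4) 10 5 (minorIdeal 3 (genSym 4)) := by
  have h : irr 4 = m4 := span_X_eq
  rw [h]
  refine ⟨fun D _ => ?_, ⟨2, by decide, ?_⟩, fun H => H.1 3 (by decide) ?_⟩
  · exact (lc_length _).trans_ne (partA' D)
  · exact (lc_length _).trans_ne partB'
  · exact (lc_length _).trans partC'

end Pool.Agent.Results.MP_8277d7_ag.Disproof
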